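import Pool.Agent.H625R2.Mem

/-!
# Testing an upper bound on the spectral norm of a tensor is `∀ℝ`-complete

The hardness proof goes from the existential theory of the reals to strict negativity of a biquadratic
form.  First, an elementary effective gap theorem: if a system of quadratic equations (a chain of
repeated squarings and the constraints of the instance) has no solution then its sum of squares is
bounded below by the inverse of a number that can be produced by repeated squaring.  Hence the
system has a solution if and only if some explicit quartic form takes a negative value; this form
is turned into a biquadratic form and then into the spectral norm of a 3-tensor.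
-/

namespace Pool.Agent.Results.MP_50cd9e_lc.SpectralNormComplete

open Pool.Agent.NPC Pool.Agent.NPC.ER Pool.Agent.NPC.ER.Tens

/-- SPECTRAL-NORM-BOUND is `∀ℝ`-complete and SPECTRAL-NORM-EXCEED is `∃ℝ`-complete, under
polynomial-time many-one reductions. -/
theorem result : ARComplete (lang SpectralNormBound) ∧ ERComplete (lang SpectralNormExceed) :=
  ⟨bound_complete, exceed_complete⟩

end Pool.Agent.Results.MP_50cd9e_lc.SpectralNormComplete
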